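import Pool.Agent.Lib.MP_688fd0_co.SQ7.H90.Asm

/-!
Type C2, B1-FULL, the case `N_V = 1` (helper58): the columns of one coset are a bounded group `V` and every visit can be put
on every column. One ladder per coset; its rails are strands, followed through the passive twisted visits.
-/

set_option autoImplicit false

namespace Pool.Agent.Lib.MP_688fd0_co.SQ7.H58

open Equiv Relation
open Function (Injective)
open Pool.Agent.Lib.MP_688fd0_co.SQ7.H90

/-- The tokens: the bottoms of the columns of the cosets, and the visits. -/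
abbrev Tok (XX V nu : Type) : Type := (XX × V) ⊕ nu

/-- The data: `X t` the coset of the visit `t`, `w t = 1` for a plain visit, `w t ≠ 1` for a twisted one, `lv` the visits in
the order of their levels, `nx` the successor in the thread, `ga` the return of a coset. -/
structure BD (XX V nu : Type) [Group V] where
  X : nu → XX
  w : nu → V
  n : ℕ
  lv : ℕ → nu
  nx : Perm nu
  ga : XX → Perm V

variable {XX V nu : Type} [Group V] [DecidableEq XX] [DecidableEq V] [DecidableEq nu]

namespace BD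

/-- The outside. -/
def O (B : BD XX V nu) : Perm (Tok XX V nu) := Equiv.sumCongr (Equiv.prodShear (Equiv.refl XX) B.ga) B.nx

variable (B : BD XX V nu)

theorem O_inl (x : XX) (v : V) : B.O (Sum.inl (x, v)) = Sum.inl (x, B.ga x v) := rfl

theorem O_inr (t : nu) : B.O (Sum.inr t) = Sum.inr (B.nx t) := rfl

/-- A visit on the column `c`. -/
def vis (t : nu) (c : V) : Perm (Tok XX V nu) :=
  swap (Sum.inl (B.X t, c)) (Sum.inl (B.X t, B.w t * c)) * swap (Sum.inr t) (Sum.inl (B.X t, c))

/-- All visits. -/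
def K (col : nu → V) : Perm (Tok XX V nu) := pl (fun k => B.vis (B.lv k) (col (B.lv k))) (List.range B.n)

theorem vis_c (t : nu) (c : V) : B.vis t c (Sum.inl (B.X t, c)) = Sum.inr t := by
  rw [vis, Perm.mul_apply, swap_apply_right, swap_apply_of_ne_of_ne] <;> simp

theorem vis_t (t : nu) (c : V) : B.vis t c (Sum.inr t) = Sum.inl (B.X t, B.w t * c) := by
  rw [vis, Perm.mul_apply, swap_apply_left, swap_apply_left]

theorem vis_w (t : nu) (c : V) (h : B.w t ≠ 1) : B.vis t c (Sum.inl (B.X t, B.w t * c)) = Sum.inl (B.X t, c) := by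
  have e1 : (Sum.inl (B.X t, B.w t * c) : Tok XX V nu) ≠ Sum.inl (B.X t, c) := fun h' =>
    h (mul_eq_right.1 (Prod.ext_iff.1 (Sum.inl.inj h')).2)
  have e2 : swap (Sum.inr t) (Sum.inl (B.X t, c)) (Sum.inl (B.X t, B.w t * c) : Tok XX V nu)
      = Sum.inl (B.X t, B.w t * c) := swap_apply_of_ne_of_ne (by simp) e1
  rw [vis, Perm.mul_apply, e2, swap_apply_right]

theorem vis_inl (t : nu) (c : V) {x : XX} {v : V} (h1 : x = B.X t → v ≠ c) (h2 : x = B.X t → v ≠ B.w t * c) :
    B.vis t c (Sum.inl (x, v)) = Sum.inl (x, v) := by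
  have e1 : (Sum.inl (x, v) : Tok XX V nu) ≠ Sum.inl (B.X t, c) := fun h => by
    have := Prod.ext_iff.1 (Sum.inl.inj h)
    exact h1 this.1 this.2
  have e2 : (Sum.inl (x, v) : Tok XX V nu) ≠ Sum.inl (B.X t, B.w t * c) := fun h => by
    have := Prod.ext_iff.1 (Sum.inl.inj h)
    exact h2 this.1 this.2
  rw [vis, Perm.mul_apply, swap_apply_of_ne_of_ne (by simp) e1, swap_apply_of_ne_of_ne e1 e2]

theorem vis_inr (t : nu) (c : V) {t' : nu} (h : t' ≠ t) : B.vis t c (Sum.inr t') = Sum.inr t' := by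
  have e1 : (Sum.inr t' : Tok XX V nu) ≠ Sum.inr t := fun h' => h (Sum.inr.inj h')
  have e2 : swap (Sum.inr t) (Sum.inl (B.X t, c)) (Sum.inr t' : Tok XX V nu) = Sum.inr t' :=
    swap_apply_of_ne_of_ne e1 (by simp)
  rw [vis, Perm.mul_apply, e2]
  exact swap_apply_of_ne_of_ne (by simp) (by simp)

/-- The rail `b` can be moved by the twisted visit `t`. -/
def good (t : nu) (R : XX → Bool → V) (b : Bool) : Prop := (B.w t)⁻¹ * R (B.X t) b ≠ R (B.X t) (!b)

open Classical in
/-- The rail which is moved. -/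
noncomputable def bb (t : nu) (R : XX → Bool → V) : Bool := if B.good t R true then true else false

open Classical in
/-- The new columns of the rails. -/
noncomputable def stp (t : nu) (R : XX → Bool → V) (x : XX) (b : Bool) : V :=
  if x = B.X t ∧ B.w t ≠ 1 then
    if ∃ b, B.good t R b then if b = B.bb t R then (B.w t)⁻¹ * R x b else R x b else R x (!b)
  else R x b

/-- The columns of the rails before the visit `k`. -/
noncomputable def R (s : Bool → V) : ℕ → XX → Bool → V
  | 0 => fun _ => s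
  | k + 1 => B.stp (B.lv k) (R s k)

/-- The visit `k` is twisted and passive. -/
def tw (s : Bool → V) (k : ℕ) : Prop := B.w (B.lv k) ≠ 1 ∧ ∃ b, B.good (B.lv k) (B.R s k) b

/-- The visit `k` is twisted and active. -/
def sw (s : Bool → V) (k : ℕ) : Prop := B.w (B.lv k) ≠ 1 ∧ ¬ ∃ b, B.good (B.lv k) (B.R s k) b

/-- The columns which are never used by a rail. -/
def U (s : Bool → V) (x : XX) : Set V := {v | ∀ k ≤ B.n, ∀ b, B.R s k x b ≠ v}

/-- The visit `t` is plain and passive. -/
def pp (s : Bool → V) (q : XX → V → nu) (t : nu) : Prop := ∃ v ∈ B.U s (B.X t), q (B.X t) v = t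

/-- The visit `k` is passive. -/
def pas (s : Bool → V) (q : XX → V → nu) (k : ℕ) : Prop := B.pp s q (B.lv k) ∨ B.tw s k

variable {B}
variable {s : Bool → V} {q : XX → V → nu}

theorem bb_good {t : nu} {R : XX → Bool → V} (h : ∃ b, B.good t R b) : B.good t R (B.bb t R) := by
  unfold bb
  split_ifs with h1
  · exact h1
  · obtain ⟨b, hb⟩ := h
    cases b
    · exact hb
    · exact absurd hb h1

theorem R_off {k : ℕ} {x : XX} {b : Bool} (h : x = B.X (B.lv k) → B.w (B.lv k) = 1) :
    B.R s (k + 1) x b = B.R s k x b := by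
  show B.stp (B.lv k) (B.R s k) x b = _
  unfold stp
  rw [if_neg]
  rintro ⟨h1, h2⟩
  exact h2 (h h1)

theorem R_tw {k : ℕ} (h : B.tw s k) (b : Bool) : B.R s (k + 1) (B.X (B.lv k)) b =
    if b = B.bb (B.lv k) (B.R s k) then (B.w (B.lv k))⁻¹ * B.R s k (B.X (B.lv k)) b else B.R s k (B.X (B.lv k)) b := by
  show B.stp (B.lv k) (B.R s k) _ b = _
  unfold stp
  rw [if_pos ⟨rfl, h.1⟩, if_pos h.2]

theorem R_sw {k : ℕ} (h : B.sw s k) (b : Bool) : B.R s (k + 1) (B.X (B.lv k)) b = B.R s k (B.X (B.lv k)) (!b) := by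
  show B.stp (B.lv k) (B.R s k) _ b = _
  unfold stp
  rw [if_pos ⟨rfl, h.1⟩, if_neg h.2]

variable (B s q)

open Classical in
/-- The column of a passive visit. -/
noncomputable def pc (k : ℕ) : V :=
  if h : B.pp s q (B.lv k) then h.choose
  else (B.w (B.lv k))⁻¹ * B.R s k (B.X (B.lv k)) (B.bb (B.lv k) (B.R s k))

open Classical in
/-- The passive part of the visit `k`. -/
noncomputable def Z (k : ℕ) : Perm (Tok XX V nu) :=
  if B.pas s q k then B.vis (B.lv k) (B.pc s q k)
  else if B.sw s k then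
    swap (Sum.inl (B.X (B.lv k), B.R s k (B.X (B.lv k)) false)) (Sum.inl (B.X (B.lv k), B.R s k (B.X (B.lv k)) true))
  else 1

/-- The passive parts of the visits before `k`. -/
noncomputable def P (k : ℕ) : Perm (Tok XX V nu) := pl (B.Z s q) (List.range k)

theorem P_succ (k : ℕ) : B.P s q (k + 1) = B.Z s q k * B.P s q k := by
  unfold P
  rw [List.range_succ, pl_append]
  show (1 * _) * _ = _
  rw [one_mul]

/-- The hypotheses. -/
structure Hy : Prop where
  hs : s true ≠ s false
  inj : ∀ k < B.n, ∀ k' < B.n, B.lv k = B.lv k' → k = k'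
  qX : ∀ x, ∀ v ∈ B.U s x, B.X (q x v) = x ∧ B.w (q x v) = 1
  qi : ∀ x, Set.InjOn (q x) (B.U s x)

variable {B s q}

theorem pp_w (H : B.Hy s q) {t : nu} (h : B.pp s q t) : B.w t = 1 := by
  obtain ⟨v, hv, h1⟩ := h
  rw [← h1]
  exact (H.qX _ v hv).2

theorem pc_pp {k : ℕ} (h : B.pp s q (B.lv k)) :
    B.pc s q k ∈ B.U s (B.X (B.lv k)) ∧ q (B.X (B.lv k)) (B.pc s q k) = B.lv k := by
  unfold pc
  rw [dif_pos h]
  exact h.choose_spec

theorem pc_tw (H : B.Hy s q) {k : ℕ} (h : B.tw s k) : B.pc s q k =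
    (B.w (B.lv k))⁻¹ * B.R s k (B.X (B.lv k)) (B.bb (B.lv k) (B.R s k)) := by
  unfold pc
  rw [dif_neg fun h' => h.1 (pp_w H h')]

/-- The two cases of a passive visit. -/
theorem pas_cases (H : B.Hy s q) {k : ℕ} (hk : k < B.n) (h5 : B.R s k (B.X (B.lv k)) true ≠ B.R s k (B.X (B.lv k)) false)
    (h : B.pas s q k) :
    -- plain
    (B.w (B.lv k) = 1 ∧ B.pp s q (B.lv k) ∧ (∀ x b, B.R s (k + 1) x b = B.R s k x b) ∧
      (∀ b, B.R s k (B.X (B.lv k)) b ≠ B.pc s q k)) ∨
    -- twisted
    (B.w (B.lv k) ≠ 1 ∧ ¬ B.pp s q (B.lv k) ∧ (∀ x b, x ≠ B.X (B.lv k) → B.R s (k + 1) x b = B.R s k x b) ∧ ∃ β : Bool,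
      B.w (B.lv k) * B.pc s q k = B.R s k (B.X (B.lv k)) β ∧ B.pc s q k ≠ B.R s k (B.X (B.lv k)) β ∧
      B.pc s q k ≠ B.R s k (B.X (B.lv k)) (!β) ∧ B.R s (k + 1) (B.X (B.lv k)) β = B.pc s q k ∧
      B.R s (k + 1) (B.X (B.lv k)) (!β) = B.R s k (B.X (B.lv k)) (!β)) := by
  rcases h with h | h
  · left
    refine ⟨pp_w H h, h, fun x b => R_off fun _ => pp_w H h, fun b => (pc_pp h).1 k hk.le b⟩
  · right
    refine ⟨h.1, fun h' => h.1 (pp_w H h'), fun x b hx => R_off fun h' => absurd h' hx, B.bb (B.lv k) (B.R s k), ?_⟩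
    rw [pc_tw H h, mul_inv_cancel_left, R_tw h, R_tw h, if_pos rfl, if_neg (by simp)]
    refine ⟨rfl, fun h' => h.1 ?_, bb_good h.2, rfl, rfl⟩
    rw [mul_eq_right, inv_eq_one] at h'
    exact h'

/-- The invariant. -/
structure Iv (B : BD XX V nu) (s : Bool → V) (q : XX → V → nu) (k : ℕ) : Prop where
  i1 : ∀ x b, B.P s q k (Sum.inl (x, s b)) = Sum.inl (x, B.R s k x b)
  i2 : ∀ x v, (∀ b, v ≠ s b) → (B.P s q k (Sum.inl (x, v)) = Sum.inl (x, v) ∧ (∀ j ≤ k, ∀ b, B.R s j x b ≠ v) ∧
    ∀ j < k, B.pp s q (B.lv j) → B.X (B.lv j) = x → B.pc s q j ≠ v) ∨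
    ∃ j < k, B.pas s q j ∧ B.P s q k (Sum.inl (x, v)) = Sum.inr (B.lv j)
  i3 : ∀ j < k, B.pas s q j → (∃ x v, B.P s q k (Sum.inr (B.lv j)) = Sum.inl (x, v) ∧ ∀ b, B.R s k x b ≠ v) ∨
    ∃ j' < k, B.pas s q j' ∧ B.P s q k (Sum.inr (B.lv j)) = Sum.inr (B.lv j')
  i4 : ∀ t, (∀ j < k, B.pas s q j → B.lv j ≠ t) → B.P s q k (Sum.inr t) = Sum.inr t
  i5 : ∀ x, B.R s k x true ≠ B.R s k x false

theorem ne_bool {f : Bool → V} (h : f true ≠ f false) (b : Bool) : f b ≠ f (!b) := by
  cases b
  · exact h.symm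
  · exact h

theorem iv (H : B.Hy s q) (k : ℕ) (hk : k ≤ B.n) : Iv B s q k := by
  classical
  induction k with
  | zero =>
    refine ⟨fun x b => rfl, fun x v hv => Or.inl ⟨rfl, fun j hj b => ?_, fun j hj => absurd hj (by omega)⟩,
      fun j hj => absurd hj (by omega), fun t _ => rfl, fun x => H.hs⟩
    obtain rfl : j = 0 := by omega
    exact fun h => hv b h.symm
  | succ k ih =>
    obtain ⟨i1, i2, i3, i4, i5⟩ := ih (by omega)
    have hkn : k < B.n := by omega
    by_cases hp : B.pas s q k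
    · have hZ : B.Z s q k = B.vis (B.lv k) (B.pc s q k) := by unfold Z; rw [if_pos hp]
      have hc := pas_cases H hkn (i5 _) hp
      have hpk : B.P s q k (Sum.inr (B.lv k)) = Sum.inr (B.lv k) :=
        i4 _ fun j hj _ h => absurd (H.inj j (by omega) k hkn h) (by omega)
      have hfr : ∀ j < k, B.vis (B.lv k) (B.pc s q k) (Sum.inr (B.lv j)) = Sum.inr (B.lv j) := fun j hj =>
        vis_inr _ _ _ fun h => absurd (H.inj j (by omega) k hkn h) (by omega)
      -- a column which is not a rail and not `pc` stays and is not a rail afterwards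
      have hst : ∀ x v, (∀ b, B.R s k x b ≠ v) → (x = B.X (B.lv k) → v ≠ B.pc s q k) →
          B.vis (B.lv k) (B.pc s q k) (Sum.inl (x, v)) = Sum.inl (x, v) ∧ ∀ b, B.R s (k + 1) x b ≠ v := by
        intro x v hv hx
        rcases hc with ⟨w1, _, hR, _⟩ | ⟨_, _, hR, β, e1, _, _, e4, e5⟩
        · refine ⟨vis_inl _ _ _ hx (fun h => by rw [w1, one_mul]; exact hx h), fun b => ?_⟩
          rw [hR]; exact hv b
        · refine ⟨vis_inl _ _ _ hx (fun h => ?_), fun b => ?_⟩
          · rw [e1]
            rintro rfl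
            subst h
            exact hv β rfl
          · by_cases hx' : x = B.X (B.lv k)
            · subst hx'
              rcases Bool.eq_or_eq_not b β with rfl | rfl
              · rw [e4]; exact (hx rfl).symm
              · rw [e5]; exact hv _
            · rw [hR x b hx']; exact hv b
      refine ⟨?_, ?_, ?_, ?_, ?_⟩
      · intro x b
        rw [P_succ, Perm.mul_apply, i1, hZ]
        rcases hc with ⟨w1, _, hR, hn⟩ | ⟨w1, _, hR, β, e1, e2, e3, e4, e5⟩
        · rw [hR, vis_inl]
          · rintro rfl; exact hn b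
          · rintro rfl; rw [w1, one_mul]; exact hn b
        · by_cases hx' : x = B.X (B.lv k)
          · subst hx'
            rcases Bool.eq_or_eq_not b β with rfl | rfl
            · rw [← e1, vis_w _ _ _ w1, e4]
            · rw [e5, vis_inl]
              · exact fun _ => e3.symm
              · intro _; rw [e1]; exact (ne_bool (i5 _) β).symm
          · rw [hR x b hx', vis_inl]
            · exact fun h => absurd h hx'
            · exact fun h => absurd h hx'
      · intro x v hv
        rcases i2 x v hv with ⟨h1, h2, h3⟩ | ⟨j, hj, hj1, hj2⟩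
        · by_cases hva : x = B.X (B.lv k) ∧ v = B.pc s q k
          · right
            refine ⟨k, by omega, hp, ?_⟩
            rw [P_succ, Perm.mul_apply, h1, hZ, hva.1, hva.2, vis_c]
          · left
            obtain ⟨g1, g2⟩ := hst x v (h2 k le_rfl) (fun h h' => hva ⟨h, h'⟩)
            refine ⟨by rw [P_succ, Perm.mul_apply, h1, hZ, g1], ?_, ?_⟩
            · intro j hj b
              rcases Nat.lt_or_ge k j with h | h
              · obtain rfl : j = k + 1 := by omega
                exact g2 b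
              · exact h2 j h b
            · intro j hj h4 h5
              rcases Nat.lt_or_ge j k with h | h
              · exact h3 j h h4 h5
              · obtain rfl : j = k := by omega
                exact fun h6 => hva ⟨h5.symm, h6.symm⟩
        · right
          refine ⟨j, by omega, hj1, ?_⟩
          rw [P_succ, Perm.mul_apply, hj2, hZ, hfr j hj]
      · intro j hj hj1
        rcases Nat.lt_or_ge j k with h | h
        · rcases i3 j h hj1 with ⟨x, v, h1, h2⟩ | ⟨j', h1, h2, h3⟩
          · by_cases hva : x = B.X (B.lv k) ∧ v = B.pc s q k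
            · right
              refine ⟨k, by omega, hp, ?_⟩
              rw [P_succ, Perm.mul_apply, h1, hZ, hva.1, hva.2, vis_c]
            · left
              obtain ⟨g1, g2⟩ := hst x v h2 (fun h h' => hva ⟨h, h'⟩)
              exact ⟨x, v, by rw [P_succ, Perm.mul_apply, h1, hZ, g1], g2⟩
          · right
            exact ⟨j', by omega, h2, by rw [P_succ, Perm.mul_apply, h3, hZ, hfr j' h1]⟩
        · obtain rfl : j = k := by omega
          left
          refine ⟨B.X (B.lv j), B.w (B.lv j) * B.pc s q j, by rw [P_succ, Perm.mul_apply, hpk, hZ, vis_t], ?_⟩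
          intro b
          rcases hc with ⟨w1, _, hR, hn⟩ | ⟨w1, _, hR, β, e1, e2, e3, e4, e5⟩
          · rw [hR, w1, one_mul]; exact hn b
          · rw [e1]
            rcases Bool.eq_or_eq_not b β with rfl | rfl
            · rw [e4]; exact e2
            · rw [e5]; exact (ne_bool (i5 _) β).symm
      · intro t ht
        rw [P_succ, Perm.mul_apply, i4 t fun j hj h => ht j (by omega) h, hZ]
        exact vis_inr _ _ _ fun h => ht k (by omega) hp h.symm
      · intro x
        rcases hc with ⟨_, _, hR, _⟩ | ⟨_, _, hR, β, e1, e2, e3, e4, e5⟩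
        · rw [hR, hR]; exact i5 x
        · by_cases hx' : x = B.X (B.lv k)
          · subst hx'
            have h1 : B.R s (k + 1) (B.X (B.lv k)) β ≠ B.R s (k + 1) (B.X (B.lv k)) (!β) := by
              rw [e4, e5]; exact e3
            cases β
            · exact h1.symm
            · exact h1
          · rw [hR x _ hx', hR x _ hx']; exact i5 x
    · by_cases hsw : B.sw s k
      · have hZ : B.Z s q k = swap (Sum.inl (B.X (B.lv k), B.R s k (B.X (B.lv k)) false))
            (Sum.inl (B.X (B.lv k), B.R s k (B.X (B.lv k)) true)) := by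
          unfold Z; rw [if_neg hp, if_pos hsw]
        have hR : ∀ x b, x ≠ B.X (B.lv k) → B.R s (k + 1) x b = B.R s k x b := fun x b hx =>
          R_off fun h => absurd h hx
        have hR' := R_sw hsw
        have hfr : ∀ t, B.Z s q k (Sum.inr t) = Sum.inr t := fun t => by
          rw [hZ]; exact swap_apply_of_ne_of_ne (by simp) (by simp)
        have hst : ∀ x v, (∀ b, B.R s k x b ≠ v) → B.Z s q k (Sum.inl (x, v)) = Sum.inl (x, v) ∧
            ∀ b, B.R s (k + 1) x b ≠ v := by
          intro x v hv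
          constructor
          · rw [hZ]
            apply swap_apply_of_ne_of_ne
            · intro h
              obtain ⟨h1, h2⟩ := Prod.ext_iff.1 (Sum.inl.inj h)
              exact hv false (by rw [show x = B.X (B.lv k) from h1]; exact h2.symm)
            · intro h
              obtain ⟨h1, h2⟩ := Prod.ext_iff.1 (Sum.inl.inj h)
              exact hv true (by rw [show x = B.X (B.lv k) from h1]; exact h2.symm)
          · intro b
            by_cases hx : x = B.X (B.lv k)
            · subst hx; rw [hR']; exact hv _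
            · rw [hR x b hx]; exact hv b
        refine ⟨?_, ?_, ?_, ?_, ?_⟩
        · intro x b
          rw [P_succ, Perm.mul_apply, i1]
          by_cases hx : x = B.X (B.lv k)
          · subst hx
            rw [hR', hZ]
            cases b
            · rw [swap_apply_left]; rfl
            · rw [swap_apply_right]; rfl
          · rw [hR x b hx, hZ]
            apply swap_apply_of_ne_of_ne
            · exact fun h => hx (Prod.ext_iff.1 (Sum.inl.inj h)).1
            · exact fun h => hx (Prod.ext_iff.1 (Sum.inl.inj h)).1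
        · intro x v hv
          rcases i2 x v hv with ⟨h1, h2, h3⟩ | ⟨j, hj, hj1, hj2⟩
          · left
            obtain ⟨g1, g2⟩ := hst x v (h2 k le_rfl)
            refine ⟨by rw [P_succ, Perm.mul_apply, h1, g1], ?_, ?_⟩
            · intro j hj b
              rcases Nat.lt_or_ge k j with h | h
              · obtain rfl : j = k + 1 := by omega
                exact g2 b
              · exact h2 j h b
            · intro j hj h4 h5
              rcases Nat.lt_or_ge j k with h | h
              · exact h3 j h h4 h5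
              · obtain rfl : j = k := by omega
                exact absurd (Or.inl h4) hp
          · right
            exact ⟨j, by omega, hj1, by rw [P_succ, Perm.mul_apply, hj2, hfr]⟩
        · intro j hj hj1
          have h : j < k := by
            rcases Nat.lt_or_ge j k with h | h
            · exact h
            · obtain rfl : j = k := by omega
              exact absurd hj1 hp
          rcases i3 j h hj1 with ⟨x, v, h1, h2⟩ | ⟨j', h1, h2, h3⟩
          · left
            obtain ⟨g1, g2⟩ := hst x v h2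
            exact ⟨x, v, by rw [P_succ, Perm.mul_apply, h1, g1], g2⟩
          · right
            exact ⟨j', by omega, h2, by rw [P_succ, Perm.mul_apply, h3, hfr]⟩
        · intro t ht
          rw [P_succ, Perm.mul_apply, i4 t fun j hj h => ht j (by omega) h, hfr]
        · intro x
          by_cases hx : x = B.X (B.lv k)
          · subst hx; rw [hR', hR']; exact (i5 _).symm
          · rw [hR x _ hx, hR x _ hx]; exact i5 x
      · have hZ : B.Z s q k = 1 := by unfold Z; rw [if_neg hp, if_neg hsw]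
        have hw : B.w (B.lv k) = 1 := by
          by_contra hw
          by_cases hg : ∃ b, B.good (B.lv k) (B.R s k) b
          · exact hp (Or.inr ⟨hw, hg⟩)
          · exact hsw ⟨hw, hg⟩
        have hP : B.P s q (k + 1) = B.P s q k := by rw [P_succ, hZ, one_mul]
        have hR : ∀ x b, B.R s (k + 1) x b = B.R s k x b := fun x b => R_off fun _ => hw
        have hlt : ∀ j < k + 1, B.pas s q j → j < k := by
          intro j hj hj1
          rcases Nat.lt_or_ge j k with h | h
          · exact h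
          · obtain rfl : j = k := by omega
            exact absurd hj1 hp
        refine ⟨?_, ?_, ?_, ?_, ?_⟩
        · intro x b; rw [hP, hR]; exact i1 x b
        · intro x v hv
          rw [hP]
          rcases i2 x v hv with ⟨h1, h2, h3⟩ | ⟨j, hj, hj1, hj2⟩
          · left
            refine ⟨h1, ?_, ?_⟩
            · intro j hj b
              rcases Nat.lt_or_ge k j with h | h
              · obtain rfl : j = k + 1 := by omega
                rw [hR]; exact h2 k le_rfl b
              · exact h2 j h b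
            · intro j hj h4 h5
              exact h3 j (hlt j hj (Or.inl h4)) h4 h5
          · exact Or.inr ⟨j, by omega, hj1, hj2⟩
        · intro j hj hj1
          rw [hP]
          rcases i3 j (hlt j hj hj1) hj1 with ⟨x, v, h1, h2⟩ | ⟨j', h1, h2, h3⟩
          · exact Or.inl ⟨x, v, h1, fun b => by rw [hR]; exact h2 b⟩
          · exact Or.inr ⟨j', by omega, h2, h3⟩
        · intro t ht
          rw [hP]
          exact i4 t fun j hj h => ht j (by omega) h
        · intro x; rw [hR, hR]; exact i5 x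

/-! ### The assembly -/

open Classical in
/-- The data for the assembly: the visit `k` is the pair `2 k`, `2 k + 1`. -/
noncomputable def D (B : BD XX V nu) (s : Bool → V) (q : XX → V → nu) : PD (Tok XX V nu) XX where
  O := B.O
  n := 2 * B.n
  act j := j % 2 = 0 ∧ ¬ B.pas s q (j / 2)
  π j := if j % 2 = 0 then B.vis (B.lv (j / 2)) (B.pc s q (j / 2)) else if B.sw s (j / 2) then
    swap (Sum.inl (B.X (B.lv (j / 2)), B.R s (j / 2) (B.X (B.lv (j / 2))) false))
      (Sum.inl (B.X (B.lv (j / 2)), B.R s (j / 2) (B.X (B.lv (j / 2))) true)) else 1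
  e j := Sum.inr (B.lv (j / 2))
  y j b := Sum.inl (B.X (B.lv (j / 2)), B.R s (j / 2) (B.X (B.lv (j / 2))) b)
  L j := B.X (B.lv (j / 2))
  w _ := 0
  l := 1
  ρ x j b := if j = 0 then Sum.inl (x, s b) else B.O (B.P s q B.n (Sum.inl (x, s b)))

theorem act_even (k : ℕ) : (B.D s q).act (2 * k) ↔ ¬ B.pas s q k := by
  show (2 * k) % 2 = 0 ∧ ¬ B.pas s q (2 * k / 2) ↔ _
  rw [show 2 * k / 2 = k by omega, show 2 * k % 2 = 0 by omega]
  simp

theorem act_odd (k : ℕ) : ¬ (B.D s q).act (2 * k + 1) := by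
  show ¬ ((2 * k + 1) % 2 = 0 ∧ _)
  rw [show (2 * k + 1) % 2 = 1 by omega]
  simp

theorem π_even (k : ℕ) : (B.D s q).π (2 * k) = B.vis (B.lv k) (B.pc s q k) := by
  show (if (2 * k) % 2 = 0 then B.vis (B.lv (2 * k / 2)) (B.pc s q (2 * k / 2)) else _) = _
  rw [if_pos (by omega), show 2 * k / 2 = k by omega]

theorem π_odd1 {k : ℕ} (h : B.sw s k) : (B.D s q).π (2 * k + 1) =
    swap (Sum.inl (B.X (B.lv k), B.R s k (B.X (B.lv k)) false)) (Sum.inl (B.X (B.lv k), B.R s k (B.X (B.lv k)) true)) := by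
  unfold D
  simp only
  rw [if_neg (by omega), show (2 * k + 1) / 2 = k by omega, if_pos h]

theorem π_odd2 {k : ℕ} (h : ¬ B.sw s k) : (B.D s q).π (2 * k + 1) = 1 := by
  unfold D
  simp only
  rw [if_neg (by omega), show (2 * k + 1) / 2 = k by omega, if_neg h]

theorem not_sw (H : B.Hy s q) {k : ℕ} (h : B.pas s q k) : ¬ B.sw s k := by
  rintro ⟨h1, h2⟩
  rcases h with h | h
  · exact h1 (pp_w H h)
  · exact h2 h.2

theorem PP_eq (H : B.Hy s q) (k : ℕ) : (B.D s q).PP (2 * k) = B.P s q k := by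
  classical
  induction k with
  | zero => rfl
  | succ k ih =>
    rw [show 2 * (k + 1) = 2 * k + 1 + 1 by ring, PD.PP_succ, PD.PP_succ, ih, P_succ, ← mul_assoc]
    congr 1
    unfold PD.pe
    rw [if_neg (act_odd k)]
    by_cases hp : B.pas s q k
    · rw [π_odd2 (not_sw H hp), if_neg (fun h => (act_even k).1 h hp), π_even, one_mul]
      unfold Z
      rw [if_pos hp]
    · rw [if_pos ((act_even k).2 hp), mul_one]
      unfold Z
      rw [if_neg hp]
      by_cases h : B.sw s k
      · rw [if_pos h, π_odd1 h]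
      · rw [if_neg h, π_odd2 h]

theorem cases2 {P : ℕ → Prop} (h0 : ∀ k, P (2 * k)) (h1 : ∀ k, P (2 * k + 1)) (j : ℕ) : P j := by
  rcases Nat.even_or_odd' j with ⟨k, rfl | rfl⟩
  · exact h0 k
  · exact h1 k

theorem ok (H : B.Hy s q) : (B.D s q).Ok := by
  have he : ∀ j < (B.D s q).n, (B.D s q).act j → ∃ k < B.n, j = 2 * k ∧ ¬ B.pas s q k := by
    intro j hj ha
    have hj' : j < 2 * B.n := hj
    rcases Nat.even_or_odd' j with ⟨k, rfl | rfl⟩
    · exact ⟨k, by omega, rfl, (act_even k).1 ha⟩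
    · exact absurd ha (act_odd k)
  refine ⟨Nat.one_pos, fun _ _ _ => Nat.one_pos, ?_, ?_, ?_, ?_, ?_, ?_⟩
  · intro j hj ha j' hj' ha' h
    obtain ⟨k, hk, rfl, _⟩ := he j hj ha
    obtain ⟨k', hk', rfl, _⟩ := he j' hj' ha'
    have h1 : B.lv (2 * k / 2) = B.lv (2 * k' / 2) := Sum.inr.inj h
    rw [show 2 * k / 2 = k by omega, show 2 * k' / 2 = k' by omega] at h1
    rw [H.inj k hk k' hk' h1]
  · intro r j b r' j' b' hj hj' h
    have hj : j < 1 := hj
    have hj' : j' < 1 := hj'
    obtain rfl : j = 0 := by omega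
    obtain rfl : j' = 0 := by omega
    have h1 : (Sum.inl (r, s b) : Tok XX V nu) = Sum.inl (r', s b') := h
    obtain ⟨h2, h3⟩ := Prod.ext_iff.1 (Sum.inl.inj h1)
    refine ⟨h2, rfl, ?_⟩
    have h3 : s b = s b' := h3
    rcases Bool.eq_or_eq_not b b' with h4 | h4
    · exact h4
    · rw [h4] at h3
      exact absurd h3.symm (ne_bool H.hs b')
  · intro k _ _ r j b hj
    have hj : j < 1 := hj
    obtain rfl : j = 0 := by omega
    show (Sum.inr _ : Tok XX V nu) ≠ Sum.inl _
    simp
  · intro j hj ha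
    obtain ⟨k, hk, rfl, hp⟩ := he j hj ha
    rw [PP_eq H]
    show B.P s q k (Sum.inr (B.lv (2 * k / 2))) = Sum.inr (B.lv (2 * k / 2))
    rw [show 2 * k / 2 = k by omega]
    refine (iv H k hk.le).i4 _ fun j' hj' _ h => ?_
    have := H.inj _ (by omega) _ hk h
    omega
  · intro j hj ha b
    obtain ⟨k, hk, rfl, hp⟩ := he j hj ha
    rw [PP_eq H]
    show B.P s q k (Sum.inl (B.X (B.lv (2 * k / 2)), s b)) =
      Sum.inl (B.X (B.lv (2 * k / 2)), B.R s (2 * k / 2) (B.X (B.lv (2 * k / 2))) b)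
    rw [show 2 * k / 2 = k by omega]
    exact (iv H k hk.le).i1 _ _
  · intro r j b hj
    have hj : j < 1 := hj
    obtain rfl : j = 0 := by omega
    show B.O ((B.D s q).PP (2 * B.n) (Sum.inl (r, s b))) = B.O (B.P s q B.n (Sum.inl (r, s b)))
    rw [PP_eq H]

/-! ### The columns -/

open Classical in
/-- The column of the visit `k`. -/
noncomputable def ck (B : BD XX V nu) (s : Bool → V) (q : XX → V → nu) (c : ℕ → Bool) (k : ℕ) : V :=
  if B.pas s q k then B.pc s q k else B.R s k (B.X (B.lv k)) (c (2 * k))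

theorem E_vis (H : B.Hy s q) (c : ℕ → Bool) (k : ℕ) :
    (B.D s q).E c (2 * k + 1) * (B.D s q).E c (2 * k) = B.vis (B.lv k) (B.ck s q c k) := by
  classical
  unfold PD.E ck
  rw [if_neg (act_odd k)]
  by_cases hp : B.pas s q k
  · rw [π_odd2 (not_sw H hp), if_neg (fun h => (act_even k).1 h hp), π_even, one_mul, if_pos hp]
  · rw [if_pos ((act_even k).2 hp), if_neg hp]
    have e1 : (B.D s q).e (2 * k) = Sum.inr (B.lv k) := by
      show Sum.inr (B.lv (2 * k / 2)) = _
      rw [show 2 * k / 2 = k by omega]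
    have e2 : (B.D s q).y (2 * k) (c (2 * k)) = Sum.inl (B.X (B.lv k), B.R s k (B.X (B.lv k)) (c (2 * k))) := by
      show Sum.inl (B.X (B.lv (2 * k / 2)), B.R s (2 * k / 2) (B.X (B.lv (2 * k / 2))) (c (2 * k))) = _
      rw [show 2 * k / 2 = k by omega]
    rw [e1, e2]
    unfold vis
    congr 1
    by_cases h : B.sw s k
    · rw [π_odd1 h]
      have hg : ∀ b, B.w (B.lv k) * B.R s k (B.X (B.lv k)) b = B.R s k (B.X (B.lv k)) (!b) := by
        intro b
        by_contra h1
        apply h.2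
        refine ⟨!b, fun h2 => h1 ?_⟩
        rw [inv_mul_eq_iff_eq_mul, Bool.not_not] at h2
        exact h2.symm
      rw [hg]
      cases c (2 * k)
      · rfl
      · exact swap_comm _ _
    · have hw : B.w (B.lv k) = 1 := by
        by_contra hw
        by_cases hg : ∃ b, B.good (B.lv k) (B.R s k) b
        · exact hp (Or.inr ⟨hw, hg⟩)
        · exact h ⟨hw, hg⟩
      rw [π_odd2 h, hw, one_mul, swap_self]
      rfl

theorem K_eq (H : B.Hy s q) (c : ℕ → Bool) (col : nu → V) (hcol : ∀ k < B.n, col (B.lv k) = B.ck s q c k) :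
    B.K col = (B.D s q).K c := by
  have key : ∀ m ≤ B.n, pl (fun k => B.vis (B.lv k) (col (B.lv k))) (List.range m)
      = pl ((B.D s q).E c) (List.range (2 * m)) := by
    intro m
    induction m with
    | zero => intro _; rfl
    | succ m ih =>
      intro hm
      rw [show 2 * (m + 1) = 2 * m + 1 + 1 by ring, List.range_succ, List.range_succ, List.range_succ, pl_append,
        pl_append, pl_append, ← ih (by omega), ← mul_assoc]
      congr 1
      show 1 * B.vis (B.lv m) (col (B.lv m)) = (1 * (B.D s q).E c (2 * m + 1)) * (1 * (B.D s q).E c (2 * m))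
      rw [one_mul, one_mul, one_mul, E_vis H, hcol m (by omega)]
  exact key B.n le_rfl

/-! ### The theorem -/

/-- Three direct arcs from the coset `a` to the coset `b` between active visits. -/
def Three (B : BD XX V nu) (A : Set nu) (k₁ k₂ : nu) (a b : XX) : Prop :=
  ∃ t : Fin 3 → nu, Injective t ∧ ∀ i, t i ∈ A ∧ B.X (t i) = a ∧ B.nx (t i) ∈ A ∧ B.X (B.nx (t i)) = b ∧
    B.nx (t i) ≠ k₁ ∧ B.nx (t i) ≠ k₂

end BD

open BD in
/-- **The case `N_V = 1`.** -/
theorem bdd [Finite XX] [Finite V] [Nontrivial V] [Finite nu] (B : BD XX V nu) (A : Set nu)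
    (hinj : ∀ k < B.n, ∀ k' < B.n, B.lv k = B.lv k' → k = k') (hsur : ∀ t, ∃ k < B.n, B.lv k = t)
    (hA : ∀ t ∈ A, B.w t = 1) (hnx : ∀ t, t ∉ A → B.nx t ∈ A) (hX : ∀ x, ∃ t ∈ A, B.X t = x)
    (hQ : ∀ x, Nat.card V ≤ Set.ncard {t | t ∉ A ∧ B.X t = x ∧ B.w t = 1} + 2)
    {k₁ k₂ : nu} (h1 : k₁ ∈ A) (h2 : k₂ ∈ A) (h12 : k₁ ≠ k₂) (r₀ : XX)
    (hconn : ∀ r, ReflTransGen (fun a b => B.Three A k₁ k₂ a b ∨ B.Three A k₁ k₂ b a) r₀ r) :
    ∃ col : nu → V, ∀ z, (B.O * B.K col).SameCycle z (Sum.inr k₁) ∨ (B.O * B.K col).SameCycle z (Sum.inr k₂) := by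
  classical
  obtain ⟨v₀, hv₀⟩ := exists_ne (1 : V)
  set s : Bool → V := fun b => if b then 1 else v₀ with hs
  have hs1 : s true ≠ s false := by rw [hs]; simpa using hv₀.symm
  -- the injections
  have hq : ∀ x, ∃ f : V → nu, (∀ v ∈ B.U s x, f v ∉ A ∧ B.X (f v) = x ∧ B.w (f v) = 1) ∧ Set.InjOn f (B.U s x) := by
    intro x
    have hfin : (B.U s x).Finite := Set.toFinite _
    have hfin2 : {t | t ∉ A ∧ B.X t = x ∧ B.w t = 1}.Finite := Set.toFinite _
    have hc : (B.U s x).ncard + 2 ≤ Nat.card V := by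
      have e1 : ({s true, s false} : Set V).ncard = 2 := Set.ncard_pair hs1
      have e2 : Disjoint (B.U s x) {s true, s false} := by
        rw [Set.disjoint_right]
        rintro v (rfl | rfl) h
        · exact h 0 (Nat.zero_le _) true rfl
        · exact h 0 (Nat.zero_le _) false rfl
      rw [← e1, ← Set.ncard_union_eq e2 hfin (Set.toFinite _)]
      exact Set.ncard_le_card _
    have hle : (B.U s x).ncard ≤ {t | t ∉ A ∧ B.X t = x ∧ B.w t = 1}.ncard := by
      have := hQ x
      omega
    have hne : Nonempty (B.U s x ↪ {t | t ∉ A ∧ B.X t = x ∧ B.w t = 1}) := by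
      have := Fintype.ofFinite (B.U s x)
      have := Fintype.ofFinite {t | t ∉ A ∧ B.X t = x ∧ B.w t = 1}
      apply Function.Embedding.nonempty_of_card_le
      rwa [← Nat.card_eq_fintype_card, ← Nat.card_eq_fintype_card, Nat.card_coe_set_eq, Nat.card_coe_set_eq]
    obtain ⟨f⟩ := hne
    refine ⟨fun v => if h : v ∈ B.U s x then (f ⟨v, h⟩ : nu) else k₁, fun v hv => ?_, fun v hv v' hv' h => ?_⟩
    · have e1 : (if h : v ∈ B.U s x then (f ⟨v, h⟩ : nu) else k₁) = f ⟨v, hv⟩ := dif_pos hv
      have e2 : (f ⟨v, hv⟩ : nu) ∉ A ∧ B.X (f ⟨v, hv⟩ : nu) = x ∧ B.w (f ⟨v, hv⟩ : nu) = 1 := (f ⟨v, hv⟩).2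
      rw [← e1] at e2
      exact e2
    · simp only at h
      rw [dif_pos hv, dif_pos hv'] at h
      exact congrArg Subtype.val (f.injective (Subtype.ext h))
  choose q hq1 hq2 using hq
  have H : B.Hy s q := ⟨hs1, hinj, fun x v hv => (hq1 x v hv).2, hq2⟩
  have hpA : ∀ k, B.pas s q k → B.lv k ∉ A := by
    rintro k (⟨v, hv, h⟩ | h)
    · rw [← h]; exact (hq1 _ v hv).1
    · exact fun h' => h.1 (hA _ h')
  have hiv := iv H B.n le_rfl
  have hOk := ok H
  have hΘ : (B.D s q).Θ = B.O * B.P s q B.n := by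
    show B.O * (B.D s q).PP (2 * B.n) = _
    rw [PP_eq H]
  -- an active visit is a token of the system
  have hav : ∀ t, (∀ k < B.n, B.pas s q k → B.lv k ≠ t) → Sum.inr t ∈ (B.D s q).Av := by
    intro t ht
    obtain ⟨k, hk, rfl⟩ := hsur t
    refine Or.inl ⟨2 * k, ?_, (act_even k).2 fun h => ht k hk h rfl, ?_⟩
    · show 2 * k < 2 * B.n
      omega
    · show Sum.inr (B.lv (2 * k / 2)) = _
      rw [show 2 * k / 2 = k by omega]
  have havA : ∀ t ∈ A, Sum.inr t ∈ (B.D s q).Av := fun t ht => hav t fun k _ hp h => hpA k hp (h ▸ ht)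
  have havs : ∀ x b, (Sum.inl (x, s b) : Tok XX V nu) ∈ (B.D s q).Av := fun x b =>
    Or.inr ⟨x, 0, b, Nat.one_pos, rfl⟩
  -- a column
  have hco : ∀ x v, ∃ i : ℕ, ((B.D s q).Θ ^ i) (Sum.inl (x, v)) ∈ (B.D s q).Av := by
    intro x v
    by_cases hv : ∀ b, v ≠ s b
    · rcases hiv.i2 x v hv with ⟨h3, h4, h5⟩ | ⟨j, hj, hj1, hj2⟩
      · exfalso
        have hU : v ∈ B.U s x := fun j hj b => h4 j hj b
        obtain ⟨_, hX', _⟩ := hq1 x v hU
        obtain ⟨j, hj, hj1⟩ := hsur (q x v)
        have hX2 : B.X (B.lv j) = x := by rw [hj1]; exact hX'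
        have hp : B.pp s q (B.lv j) := ⟨v, by rw [hX2]; exact hU, by rw [hX2]; exact hj1.symm⟩
        apply h5 j hj hp hX2
        obtain ⟨h6, h7⟩ := pc_pp hp
        rw [hX2] at h6 h7
        exact hq2 x h6 hU (h7.trans hj1)
      · refine ⟨1, ?_⟩
        rw [pow_one, hΘ, Perm.mul_apply, hj2, O_inr]
        exact havA _ (hnx _ (hpA j hj1))
    · push Not at hv
      obtain ⟨b, rfl⟩ := hv
      exact ⟨0, havs x b⟩
  have hcov : ∀ z, ∃ i : ℕ, ((B.D s q).Θ ^ i) z ∈ (B.D s q).Av := by
    rintro (⟨x, v⟩ | t)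
    · exact hco x v
    · by_cases ht : ∀ k < B.n, B.pas s q k → B.lv k ≠ t
      · exact ⟨0, hav t ht⟩
      · push Not at ht
        obtain ⟨k, hk, hk1, rfl⟩ := ht
        rcases hiv.i3 k hk hk1 with ⟨x, v, h3, _⟩ | ⟨j, hj, hj1, hj2⟩
        · obtain ⟨i, hi⟩ := hco x (B.ga x v)
          refine ⟨i + 1, ?_⟩
          rw [pow_succ, Perm.mul_apply, hΘ, Perm.mul_apply B.O, h3, O_inl, ← hΘ]
          exact hi
        · refine ⟨1, ?_⟩
          rw [pow_one, hΘ, Perm.mul_apply, hj2, O_inr]
          exact havA _ (hnx _ (hpA j hj1))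
  choose le hle hle' using hsur
  have hact : ∀ t ∈ A, (B.D s q).act (2 * le t) := fun t ht => (act_even _).2 fun h => hpA _ h (by rw [hle']; exact ht)
  have hlt : ∀ t, 2 * le t < (B.D s q).n := fun t => by
    have := hle t
    show 2 * le t < 2 * B.n
    omega
  have hL : ∀ t, (B.D s q).L (2 * le t) = B.X t := fun t => by
    show B.X (B.lv (2 * le t / 2)) = _
    rw [show 2 * le t / 2 = le t by omega, hle']
  have he : ∀ t, (B.D s q).e (2 * le t) = Sum.inr t := fun t => by
    show Sum.inr (B.lv (2 * le t / 2)) = _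
    rw [show 2 * le t / 2 = le t by omega, hle']
  have hinj2 : ∀ t t', 2 * le t = 2 * le t' → t = t' := fun t t' h => by
    rw [← hle' t, ← hle' t', show le t = le t' by omega]
  have hthree : ∀ a b, B.Three A k₁ k₂ a b → (B.D s q).Three (2 * le k₁) (2 * le k₂) a b := by
    rintro a b ⟨t, ht, h⟩
    refine ⟨fun i => 2 * le (t i), fun i => 2 * le (B.nx (t i)), fun i j hij => ht (hinj2 _ _ hij), fun i => ?_⟩
    obtain ⟨g1, g2, g3, g4, g5, g6⟩ := h i
    refine ⟨hlt _, hact _ g1, (hL _).trans g2, hlt _, hact _ g3, (hL _).trans g4, ⟨0, ?_, fun i' hi' => absurd hi' (by omega)⟩,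
      fun h' => g5 (hinj2 _ _ h'), fun h' => g6 (hinj2 _ _ h')⟩
    show ((B.D s q).Θ ^ 1) ((B.D s q).e (2 * le (t i))) = (B.D s q).e (2 * le (B.nx (t i)))
    rw [pow_one, hΘ, Perm.mul_apply, he, he, hiv.i4 (t i) fun k _ hp h' => hpA k hp (h' ▸ g1), O_inr]
  obtain ⟨c, hc⟩ := PD.asm hOk hcov (fun x => by
    obtain ⟨t, ht, rfl⟩ := hX x
    exact ⟨2 * le t, hlt t, hact t ht, hL t⟩) (hlt k₁) (hact _ h1) (hlt k₂) (hact _ h2)
    (fun h => h12 (hinj2 _ _ h)) r₀ (fun r => ReflTransGen.mono (fun a b h => h.imp (hthree a b) (hthree b a)) _ _ (hconn r))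
  refine ⟨fun t => B.ck s q c (le t), fun z => ?_⟩
  have hK := K_eq H c (fun t => B.ck s q c (le t)) (fun k hk => by
    have := hinj _ (hle (B.lv k)) k hk (hle' _)
    rw [this])
  have := hc z
  rw [he, he] at this
  rw [hK]
  exact this

end Pool.Agent.Lib.MP_688fd0_co.SQ7.H58
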