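import Pool.Agent.Lib.MP_688fd0_co.SQ7.Iface
import Pool.Agent.Lib.MP_688fd0_co.SQ7.H58.Bdd

/-!
Type C2, B1-FULL, the case `N_V = 1` (helper58) on the objects of the interface: the columns of the visits of a plan can be
chosen such that there are at most two cycles.
-/

set_option autoImplicit false

namespace Pool.Agent.Lib.MP_688fd0_co.SQ7.H58

open Equiv Relation
open Function (Injective)
open Pool.Agent.Lib.MP_688fd0_co.SQ7 Pool.Agent.Lib.MP_688fd0_co.SQ7.H90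

section level

variable {G : Type} [Group G] {S : Lets G} {Γ T : Subgroup G} {L : ℕ} {lv : G → ℕ}

/-- The level along an element of `T`. -/
theorem lv_T (hc : Circ S Γ T L lv) (gen : T = Subgroup.closure (Set.range S.sv)) {τ : G} (h : τ ∈ T) :
    ∃ k, ∀ x ∈ Γ, lv (x * τ) = (lv x + k) % L := by
  have hle : ∀ τ ∈ Subgroup.closure (Set.range S.sv), τ ∈ Γ := fun τ h => hc.le (by rw [gen]; exact h)
  rw [gen] at h
  induction h using Subgroup.closure_induction with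
  | mem τ h =>
    obtain ⟨s, rfl⟩ := h
    exact ⟨1, fun x hx => hc.step x hx s⟩
  | one => exact ⟨0, fun x hx => by rw [mul_one, add_zero, Nat.mod_eq_of_lt (hc.lt x)]⟩
  | mul τ τ' h h' ih ih' =>
    obtain ⟨k, hk⟩ := ih
    obtain ⟨k', hk'⟩ := ih'
    refine ⟨k + k', fun x hx => ?_⟩
    rw [← mul_assoc, hk' _ (Γ.mul_mem hx (hle _ h)), hk x hx, Nat.mod_add_mod, add_assoc]
  | inv τ h ih =>
    obtain ⟨k, hk⟩ := ih
    refine ⟨L * k - k, fun x hx => ?_⟩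
    have h1 := hk (x * τ⁻¹) (Γ.mul_mem hx (Γ.inv_mem (hle _ h)))
    rw [inv_mul_cancel_right] at h1
    rw [h1, Nat.mod_add_mod]
    have h2 : k ≤ L * k := Nat.le_mul_of_pos_left _ hc.pos
    have h3 : lv (x * τ⁻¹) + k + (L * k - k) = lv (x * τ⁻¹) + L * k := by omega
    rw [h3, Nat.add_mul_mod_self_left, Nat.mod_eq_of_lt (hc.lt _)]

/-- The part of `T` of level `0`. -/
def VV (Γ T : Subgroup G) (lv : G → ℕ) (hT : T ≤ Γ) : Subgroup G where
  carrier := {τ | τ ∈ T ∧ ∀ x ∈ Γ, lv (x * τ) = lv x}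
  mul_mem' := by
    rintro a b ⟨h1, h2⟩ ⟨h3, h4⟩
    refine ⟨T.mul_mem h1 h3, fun x hx => ?_⟩
    rw [← mul_assoc, h4 _ (Γ.mul_mem hx (hT h1)), h2 x hx]
  one_mem' := ⟨T.one_mem, fun x _ => by rw [mul_one]⟩
  inv_mem' := by
    rintro a ⟨h1, h2⟩
    refine ⟨T.inv_mem h1, fun x hx => ?_⟩
    have := h2 (x * a⁻¹) (Γ.mul_mem hx (Γ.inv_mem (hT h1)))
    rw [inv_mul_cancel_right] at this
    exact this.symm

theorem mem_VV {hT : T ≤ Γ} {τ : G} : τ ∈ VV Γ T lv hT ↔ τ ∈ T ∧ ∀ x ∈ Γ, lv (x * τ) = lv x := Iff.rfl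

theorem VV_of (hc : Circ S Γ T L lv) (gen : T = Subgroup.closure (Set.range S.sv)) {a b : G} (ha : a ∈ Γ)
    (hab : a⁻¹ * b ∈ T) (h : lv a = lv b) : a⁻¹ * b ∈ VV Γ T lv hc.le := by
  refine ⟨hab, ?_⟩
  obtain ⟨k, hk⟩ := lv_T hc gen hab
  have h1 := hk a ha
  rw [mul_inv_cancel_left, ← h] at h1
  have h2 : lv a + k ≡ lv a + 0 [MOD L] := by
    show (lv a + k) % L = (lv a + 0) % L
    rw [← h1, add_zero, Nat.mod_eq_of_lt (hc.lt a)]
  have h3 : k ≡ 0 [MOD L] := Nat.ModEq.add_left_cancel' _ h2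
  intro x hx
  rw [hk x hx]
  have h4 : lv x + k ≡ lv x + 0 [MOD L] := Nat.ModEq.add_left _ h3
  have h5 : (lv x + k) % L = (lv x + 0) % L := h4
  rw [h5, add_zero, Nat.mod_eq_of_lt (hc.lt x)]

theorem VV_conj (hc : Circ S Γ T L lv) (gen : T = Subgroup.closure (Set.range S.sv)) {τ v : G} (ht : τ ∈ T)
    (hv : v ∈ VV Γ T lv hc.le) : τ * v * τ⁻¹ ∈ VV Γ T lv hc.le := by
  refine ⟨T.mul_mem (T.mul_mem ht hv.1) (T.inv_mem ht), fun x hx => ?_⟩
  obtain ⟨k, hk⟩ := lv_T hc gen (T.inv_mem ht)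
  have h1 := hk (x * τ) (Γ.mul_mem hx (hc.le ht))
  have h2 := hk (x * τ * v) (Γ.mul_mem (Γ.mul_mem hx (hc.le ht)) (hc.le hv.1))
  rw [hv.2 (x * τ) (Γ.mul_mem hx (hc.le ht)), ← h1] at h2
  rw [show x * (τ * v * τ⁻¹) = x * τ * v * τ⁻¹ by group, h2, mul_inv_cancel_right]

theorem VV_al (hc : Circ S Γ T L lv) (i : Bool) : S.al i * (S.al (!i))⁻¹ ∈ VV Γ T lv hc.le := by
  have e : S.al i * (S.al (!i))⁻¹ = S.sv (i, true) * (S.sv (!i, true))⁻¹ := by
    unfold Lets.sv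
    group
  rw [e]
  have hm : S.sv (i, true) * (S.sv (!i, true))⁻¹ ∈ T := T.mul_mem (hc.mem _) (T.inv_mem (hc.mem _))
  refine ⟨hm, fun x hx => ?_⟩
  have h1 := hc.step x hx (i, true)
  have h2 := hc.step (x * (S.sv (i, true) * (S.sv (!i, true))⁻¹)) (Γ.mul_mem hx (hc.le hm)) (!i, true)
  rw [show x * (S.sv (i, true) * (S.sv (!i, true))⁻¹) * S.sv (!i, true) = x * S.sv (i, true) by group, h1] at h2
  have h3 : lv (x * (S.sv (i, true) * (S.sv (!i, true))⁻¹)) + 1 ≡ lv x + 1 [MOD L] := h2.symm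
  have h4 := Nat.ModEq.add_right_cancel' _ h3
  have h5 : lv (x * (S.sv (i, true) * (S.sv (!i, true))⁻¹)) % L = lv x % L := h4
  rwa [Nat.mod_eq_of_lt (hc.lt _), Nat.mod_eq_of_lt (hc.lt _)] at h5

/-- A column in every coset. -/
theorem exists_col (hc : Circ S Γ T L lv) {y : G} (hy : y ∈ Γ) : ∃ a ∈ Γ, y⁻¹ * a ∈ T ∧ lv a = 0 := by
  have key : ∀ k : ℕ, y * S.sv (true, true) ^ k ∈ Γ ∧ lv (y * S.sv (true, true) ^ k) = (lv y + k) % L := by
    intro k
    induction k with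
    | zero => rw [pow_zero, mul_one, add_zero, Nat.mod_eq_of_lt (hc.lt y)]; exact ⟨hy, rfl⟩
    | succ k ih =>
      rw [pow_succ, ← mul_assoc]
      refine ⟨Γ.mul_mem ih.1 (hc.le (hc.mem _)), ?_⟩
      rw [hc.step _ ih.1, ih.2, Nat.mod_add_mod, add_assoc]
  obtain ⟨h1, h2⟩ := key (L - lv y)
  refine ⟨_, h1, ?_, ?_⟩
  · rw [inv_mul_cancel_left]
    exact T.pow_mem (hc.mem _) _
  · rw [h2]
    have := hc.lt y
    rw [show lv y + (L - lv y) = L by omega, Nat.mod_self]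

end level

/-! ### Transport of cycles -/

theorem sc {D D' : Type*} (φ : D ≃ D') (f : Perm D) (g : Perm D') (h : ∀ x, g (φ x) = φ (f x)) {x y : D}
    (hs : f.SameCycle x y) : g.SameCycle (φ x) (φ y) := by
  obtain ⟨i, rfl⟩ := hs
  refine ⟨i, ?_⟩
  have h' : ∀ x, g⁻¹ (φ x) = φ (f⁻¹ x) := fun x => by
    rw [Perm.inv_eq_iff_eq, h]
    show φ x = φ (f (f.symm x))
    rw [f.apply_symm_apply]
  induction i generalizing x with
  | zero => rfl
  | succ i ih => rw [zpow_add_one, zpow_add_one, Perm.mul_apply, Perm.mul_apply, h, ih]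
  | pred i ih => rw [zpow_sub_one, zpow_sub_one, Perm.mul_apply, Perm.mul_apply, h', ih]

theorem thr_inj (n : ℕ) (hn : 0 < n) : Injective (thr n) := by
  intro a b h
  have h1 := a.2
  have h2 := b.2
  have h0 := congrArg Fin.val h
  have key : ∀ t : Fin (n + 1), (thr n t).1 = if t.1 = n then t.1 else if t.1 = 0 then n - 1 else t.1 - 1 := by
    intro t
    unfold thr
    split_ifs <;> rfl
  rw [key, key] at h0
  apply Fin.ext
  split_ifs at h0 <;> omega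

/-- The thread. -/
noncomputable def thp (n : ℕ) (hn : 0 < n) : Perm (Fin (n + 1)) :=
  Equiv.ofBijective (thr n) (Finite.injective_iff_bijective.1 (thr_inj n hn))

/-- Three direct arcs from the coset of `a` to the coset of `b`. -/
def Thr {G : Type} [Group G] (T : Subgroup G) (v : ℕ → Vst G) (n : ℕ) (A : ℕ → Prop) (a b : G) : Prop :=
  ∃ t : Fin 3 → ℕ, Injective t ∧ ∀ i, 0 < t i ∧ t i < n ∧ A (t i) ∧ A (t i - 1) ∧ a⁻¹ * (v (t i)).y ∈ T ∧
    b⁻¹ * (v (t i - 1)).y ∈ T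

/-- **The case `N_V = 1` on the interface.** -/
theorem bddI {G : Type} [Group G] [Finite G] [DecidableEq G] (S : Lets G) (Γ T : Subgroup G) (L : ℕ) (lv : G → ℕ)
    (hc : Circ S Γ T L lv) (gen : T = Subgroup.closure (Set.range S.sv))
    (g : G) (hg : g ∈ T) (hg0 : ∀ x ∈ Γ, lv x = 0 → lv (x * g) = 0)
    (n : ℕ) (hn : 0 < n) (v : ℕ → Vst G) (hy : ∀ t ≤ n, (v t).y ∈ Γ)
    (σ : ℕ → ℕ) (σlt : ∀ k ≤ n, σ k ≤ n) (σinj : ∀ k ≤ n, ∀ k' ≤ n, σ k = σ k' → k = k')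
    (A : ℕ → Prop) (hA : ∀ t ≤ n, A t → (v t).tw = none) (hAn : A n) (hAn' : A (n - 1))
    (hpas : ∀ t < n, ¬ A t → 0 < t ∧ A (t - 1))
    (hX : ∀ x ∈ Γ, ∃ t ≤ n, A t ∧ x⁻¹ * (v t).y ∈ T)
    (M : ℕ) (hM : {τ | τ ∈ T ∧ ∀ x ∈ Γ, lv (x * τ) = lv x}.ncard ≤ M + 2)
    (hQ : ∀ x ∈ Γ, ∃ f : Fin M → ℕ, Injective f ∧ ∀ i, f i ≤ n ∧ ¬ A (f i) ∧ x⁻¹ * (v (f i)).y ∈ T ∧ (v (f i)).tw = none)
    (x₀ : G) (hx₀ : x₀ ∈ Γ)
    (hconn : ∀ x ∈ Γ, ∃ x', x⁻¹ * x' ∈ T ∧ ReflTransGen (fun a b => Thr T v n A a b ∨ Thr T v n A b a) x₀ x') :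
    ∃ a : ℕ → G, (∀ t ≤ n, a t ∈ Γ ∧ lv (a t) = 0 ∧ (a t)⁻¹ * (v t).y ∈ T ∧ lv ((v t).w S * a t) = 0) ∧
      ∀ v' : ℕ → Vst G, (∀ t ≤ n, (v' t).y = (v t).y ∧ (v' t).tw = (v t).tw ∧ ∀ c, (v' t).a c = a t) →
      ∀ (c : ℕ → Bool) (O K : Perm (SQ7.Tok Γ lv n)) (E : ℕ → Perm (SQ7.Tok Γ lv n)),
      (∀ x y : Col Γ lv, y.1 = x.1 * g → O (Sum.inl x) = Sum.inl y) →
      (∀ t, O (Sum.inr t) = Sum.inr (thr n t)) →
      (∀ k ≤ n, ∀ (t : Fin (n + 1)) (a w : Col Γ lv), t.1 = σ k → a.1 = (v' t.1).col (c t.1) →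
        w.1 = (v' t.1).w S * a.1 → E k = evis Γ lv n t (v' t.1).tw.isSome a w) →
      K = kpr E (n + 1) →
      ∀ x, (O * K).SameCycle x (Sum.inr ⟨n - 1, by omega⟩) ∨ (O * K).SameCycle x (Sum.inr (Fin.last n)) := by
  classical
  -- the cosets
  let XX : Type := {x : G ⧸ T // ∃ y ∈ Γ, (QuotientGroup.mk y : G ⧸ T) = x}
  let cl : (x : G) → x ∈ Γ → XX := fun x hx => ⟨QuotientGroup.mk x, x, hx, rfl⟩
  have cl_eq : ∀ {x y : G} (hx : x ∈ Γ) (hy : y ∈ Γ), cl x hx = cl y hy ↔ x⁻¹ * y ∈ T := by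
    intro x y hx hy
    rw [Subtype.ext_iff]
    exact QuotientGroup.eq
  have hρ : ∀ x : XX, ∃ a, ∃ ha : a ∈ Γ, lv a = 0 ∧ cl a ha = x := by
    rintro ⟨_, y, hy, rfl⟩
    obtain ⟨a, ha, h1, h2⟩ := exists_col hc hy
    exact ⟨a, ha, h2, ((cl_eq hy ha).2 h1).symm⟩
  choose ρ ρΓ ρ0 ρcl using hρ
  let V : Subgroup G := VV Γ T lv hc.le
  have hVT : ∀ v ∈ V, v ∈ T := fun v hv => hv.1
  have ρT : ∀ (y : G) (hy : y ∈ Γ), (ρ (cl y hy))⁻¹ * y ∈ T := fun y hy => (cl_eq (ρΓ _) hy).1 (ρcl _)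
  -- the columns
  let ψ₀ : XX × V → Col Γ lv := fun p => ⟨ρ p.1 * p.2.1, Γ.mul_mem (ρΓ _) (hc.le p.2.2.1), by
    rw [p.2.2.2 _ (ρΓ _)]; exact ρ0 _⟩
  have hψ : Function.Bijective ψ₀ := by
    constructor
    · rintro ⟨x, v⟩ ⟨x', v'⟩ h
      have h1 : ρ x * v.1 = ρ x' * v'.1 := congrArg Subtype.val h
      have h2 : x = x' := by
        have h3 : (ρ x)⁻¹ * ρ x' = v.1 * (v'.1)⁻¹ := by
          rw [eq_mul_inv_iff_mul_eq, mul_assoc, ← h1, inv_mul_cancel_left]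
        have h4 : cl (ρ x) (ρΓ x) = cl (ρ x') (ρΓ x') := (cl_eq (ρΓ x) (ρΓ x')).2 (by
          rw [h3]
          exact T.mul_mem v.2.1 (T.inv_mem v'.2.1))
        rwa [ρcl, ρcl] at h4
      subst h2
      rw [mul_right_inj] at h1
      rw [Subtype.ext h1]
    · rintro ⟨a, ha, h0⟩
      refine ⟨(cl a ha, ⟨(ρ (cl a ha))⁻¹ * a, VV_of hc gen (ρΓ _) (ρT a ha) ((ρ0 _).trans h0.symm)⟩), ?_⟩
      apply Subtype.ext
      show ρ (cl a ha) * ((ρ (cl a ha))⁻¹ * a) = a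
      rw [mul_inv_cancel_left]
  let ψ : XX × V ≃ Col Γ lv := Equiv.ofBijective ψ₀ hψ
  have ψ_val : ∀ x v, (ψ (x, v)).1 = ρ x * v.1 := fun _ _ => rfl
  let φ : ((XX × V) ⊕ Fin (n + 1)) ≃ SQ7.Tok Γ lv n := Equiv.sumCongr ψ (Equiv.refl _)
  have φl : ∀ p, φ (Sum.inl p) = Sum.inl (ψ p) := fun _ => rfl
  have φr : ∀ t, φ (Sum.inr t) = Sum.inr t := fun _ => rfl
  -- the data
  have hgV : g ∈ V := by
    obtain ⟨a, ha, _, h0⟩ := exists_col hc Γ.one_mem
    have h1 := VV_of hc gen ha (b := a * g) (by rw [inv_mul_cancel_left]; exact hg) (by rw [h0, hg0 a ha h0])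
    rwa [inv_mul_cancel_left] at h1
  have yΓ : ∀ t : Fin (n + 1), (v t.1).y ∈ Γ := fun t => hy _ (by have := t.2; omega)
  let X : Fin (n + 1) → XX := fun t => cl (v t.1).y (yΓ t)
  have hw : ∀ t : Fin (n + 1), (ρ (X t))⁻¹ * (v t.1).w S * ρ (X t) ∈ V := by
    intro t
    unfold Vst.w
    rcases h : (v t.1).tw with _ | s
    · show (ρ (X t))⁻¹ * 1 * ρ (X t) ∈ V
      rw [mul_one, inv_mul_cancel]
      exact V.one_mem
    · show (ρ (X t))⁻¹ * ((v t.1).y * S.al s.1 * (S.al (!s.1))⁻¹ * (v t.1).y⁻¹) * ρ (X t) ∈ V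
      have h1 := VV_conj hc gen (ρT _ (yΓ t)) (VV_al hc s.1)
      have e : (ρ (X t))⁻¹ * ((v t.1).y * S.al s.1 * (S.al (!s.1))⁻¹ * (v t.1).y⁻¹) * ρ (X t)
          = (ρ (X t))⁻¹ * (v t.1).y * (S.al s.1 * (S.al (!s.1))⁻¹) * ((ρ (X t))⁻¹ * (v t.1).y)⁻¹ := by group
      rw [e]
      exact h1
  let B : BD XX V (Fin (n + 1)) :=
    { X := X
      w := fun t => ⟨_, hw t⟩
      n := n + 1
      lv := fun k => if h : σ k < n + 1 then ⟨σ k, h⟩ else Fin.last n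
      nx := thp n hn
      ga := fun _ => Equiv.mulRight ⟨g, hgV⟩ }
  have Blv : ∀ k, k < n + 1 → (B.lv k).1 = σ k := by
    intro k hk
    show (if h : σ k < n + 1 then (⟨σ k, h⟩ : Fin (n + 1)) else Fin.last n).1 = σ k
    rw [dif_pos (by have := σlt k (by omega); omega)]
  have Bw : ∀ t, B.w t = 1 ↔ (v t.1).tw = none := by
    intro t
    have e0 : B.w t = 1 ↔ (ρ (X t))⁻¹ * (v t.1).w S * ρ (X t) = 1 := Subtype.ext_iff
    rw [e0]
    have e1 : (ρ (X t))⁻¹ * (v t.1).w S * ρ (X t) = 1 ↔ (v t.1).w S = 1 := by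
      constructor
      · intro h
        have : (v t.1).w S = ρ (X t) * ((ρ (X t))⁻¹ * (v t.1).w S * ρ (X t)) * (ρ (X t))⁻¹ := by group
        rw [this, h, mul_one, mul_inv_cancel]
      · intro h
        rw [h, mul_one, inv_mul_cancel]
    rw [e1]
    unfold Vst.w
    rcases h : (v t.1).tw with _ | s
    · exact ⟨fun _ => rfl, fun _ => rfl⟩
    · show (v t.1).y * S.al s.1 * (S.al (!s.1))⁻¹ * (v t.1).y⁻¹ = 1 ↔ some s = none
      constructor
      · intro h1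
        exfalso
        have h2 : S.al s.1 = S.al (!s.1) := by
          have h3 : (v t.1).y * S.al s.1 * (S.al (!s.1))⁻¹ = (v t.1).y := by
            rw [mul_inv_eq_one] at h1
            exact h1
          rw [mul_assoc, mul_eq_left, mul_inv_eq_one] at h3
          exact h3
        rcases hs : s.1 with _ | _
        · rw [hs] at h2; exact hc.ne h2
        · rw [hs] at h2; exact hc.ne h2.symm
      · intro h1; cases h1
  have Bnx : ∀ t : Fin (n + 1), B.nx t = thr n t := fun _ => rfl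
  have : Finite XX := inferInstanceAs (Finite {x : G ⧸ T // ∃ y ∈ Γ, (QuotientGroup.mk y : G ⧸ T) = x})
  have hVnt : Nontrivial V := by
    refine ⟨⟨⟨_, VV_al hc false⟩, 1, fun h => ?_⟩⟩
    have h1 : S.al false * (S.al (!false))⁻¹ = 1 := congrArg Subtype.val h
    rw [mul_inv_eq_one] at h1
    exact hc.ne h1
  have hnn : n - 1 < n + 1 := by omega
  have hgood : ∀ t : Fin (n + 1), t.1 < n → 0 < t.1 → (B.nx t).1 = t.1 - 1 := by
    intro t h1 h2
    rw [Bnx]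
    unfold thr
    rw [if_neg (by omega), if_neg (by omega)]
  have hThr : ∀ a b (ha : a ∈ Γ) (hb : b ∈ Γ), Thr T v n A a b →
      B.Three {t : Fin (n + 1) | A t.1} ⟨n - 1, hnn⟩ (Fin.last n) (cl a ha) (cl b hb) := by
    rintro a b ha hb ⟨t, ht, h⟩
    refine ⟨fun i => ⟨t i, by have := (h i).2.1; omega⟩, fun i j hij => ht (congrArg Fin.val hij), fun i => ?_⟩
    obtain ⟨g1, g2, g3, g4, g5, g6⟩ := h i
    have hnx := hgood ⟨t i, by omega⟩ g2 g1
    have hnx' : B.nx ⟨t i, by omega⟩ = (⟨t i - 1, by omega⟩ : Fin (n + 1)) := Fin.ext hnx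
    refine ⟨g3, ((cl_eq ha (yΓ _)).2 g5).symm, ?_, ?_, ?_, ?_⟩
    · rw [hnx']; exact g4
    · rw [hnx']; exact ((cl_eq hb (yΓ _)).2 g6).symm
    · rw [hnx']
      intro h'
      have := congrArg Fin.val h'
      simp only at this
      omega
    · rw [hnx']
      intro h'
      have := congrArg Fin.val h'
      simp only [Fin.val_last] at this
      omega
  have hmain : ∃ col : Fin (n + 1) → V, ∀ z, (B.O * B.K col).SameCycle z (Sum.inr ⟨n - 1, hnn⟩) ∨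
      (B.O * B.K col).SameCycle z (Sum.inr (Fin.last n)) := by
    refine bdd B {t : Fin (n + 1) | A t.1} (k₁ := ⟨n - 1, hnn⟩) (k₂ := Fin.last n) ?_ ?_ ?_ ?_ ?_ ?_ hAn' hAn
      (fun h => by
        have := congrArg Fin.val h
        simp only [Fin.val_last] at this
        omega) (cl x₀ hx₀) ?_
    · intro k hk k' hk' h
      have h1 := congrArg Fin.val h
      rw [Blv k hk, Blv k' hk'] at h1
      have hk1 : k < n + 1 := hk
      have hk1' : k' < n + 1 := hk'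
      exact σinj k (by omega) k' (by omega) h1
    · intro t
      have hinj : Injective (fun k : Fin (n + 1) => B.lv k.1) := by
        intro k k' h
        have h1 := congrArg Fin.val h
        simp only at h1
        rw [Blv _ k.2, Blv _ k'.2] at h1
        exact Fin.ext (σinj _ (by have := k.2; omega) _ (by have := k'.2; omega) h1)
      obtain ⟨k, hk⟩ := (Finite.injective_iff_surjective.1 hinj) t
      exact ⟨k.1, k.2, hk⟩
    · intro t ht
      exact (Bw t).2 (hA _ (by have := t.2; omega) ht)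
    · intro t ht
      have h1 : t.1 < n := by
        rcases Nat.lt_or_ge t.1 n with h | h
        · exact h
        · exfalso
          apply ht
          have := t.2
          rw [Set.mem_setOf_eq, show t.1 = n by omega]
          exact hAn
      obtain ⟨h2, h3⟩ := hpas t.1 h1 ht
      rw [Set.mem_setOf_eq, hgood t h1 h2]
      exact h3
    · rintro ⟨_, x, hx, rfl⟩
      obtain ⟨t, ht, h1, h2⟩ := hX x hx
      exact ⟨⟨t, by omega⟩, h1, ((cl_eq hx (yΓ _)).2 h2).symm⟩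
    · rintro ⟨_, x, hx, rfl⟩
      obtain ⟨f, hf, h⟩ := hQ x hx
      have hV : Nat.card V ≤ M + 2 := hM
      refine hV.trans (Nat.add_le_add_right ?_ 2)
      have h1 : Injective (fun i => (⟨f i, by have := (h i).1; omega⟩ : Fin (n + 1))) :=
        fun i j hij => hf (congrArg Fin.val hij)
      have h2 : (Set.range (fun i => (⟨f i, by have := (h i).1; omega⟩ : Fin (n + 1)))).ncard = M := by
        rw [← Set.image_univ, Set.ncard_image_of_injective _ h1, Set.ncard_univ, Nat.card_fin]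
      rw [← h2]
      refine Set.ncard_le_ncard ?_ (Set.toFinite _)
      rintro _ ⟨i, rfl⟩
      obtain ⟨g1, g2, g3, g4⟩ := h i
      exact ⟨g2, ((cl_eq hx (yΓ _)).2 g3).symm, (Bw _).2 g4⟩
    · rintro ⟨_, x, hx, rfl⟩
      obtain ⟨x', h1, h2⟩ := hconn x hx
      have hx' : x' ∈ Γ := by
        have := Γ.mul_mem hx (hc.le h1)
        rwa [mul_inv_cancel_left] at this
      have key : ∀ y, ReflTransGen (fun a b => Thr T v n A a b ∨ Thr T v n A b a) x₀ y → ∃ hy : y ∈ Γ,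
          ReflTransGen (fun a b => B.Three {t : Fin (n + 1) | A t.1} ⟨n - 1, hnn⟩ (Fin.last n) a b ∨
            B.Three {t : Fin (n + 1) | A t.1} ⟨n - 1, hnn⟩ (Fin.last n) b a) (cl x₀ hx₀) (cl y hy) := by
        intro y hy
        induction hy with
        | refl => exact ⟨hx₀, ReflTransGen.refl⟩
        | tail _ h3 ih =>
          obtain ⟨hb, ih⟩ := ih
          rename_i b c' _
          have hc' : c' ∈ Γ := by
            rcases h3 with ⟨t, _, h⟩ | ⟨t, _, h⟩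
            · obtain ⟨_, g2, _, _, _, g6⟩ := h 0
              have h7 := Γ.mul_mem (hy _ (by omega) : (v (t 0 - 1)).y ∈ Γ) (Γ.inv_mem (hc.le g6))
              rw [show (v (t 0 - 1)).y * (c'⁻¹ * (v (t 0 - 1)).y)⁻¹ = c' by group] at h7
              exact h7
            · obtain ⟨_, g2, _, _, g5, _⟩ := h 0
              have h7 := Γ.mul_mem (hy _ (by omega) : (v (t 0)).y ∈ Γ) (Γ.inv_mem (hc.le g5))
              rw [show (v (t 0)).y * (c'⁻¹ * (v (t 0)).y)⁻¹ = c' by group] at h7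
              exact h7
          exact ⟨hc', ih.tail (h3.imp (hThr _ _ hb hc') (hThr _ _ hc' hb))⟩
      obtain ⟨_, h3⟩ := key x' h2
      have h4 : cl x' hx' = cl x hx := ((cl_eq hx hx').2 h1).symm
      rw [← show cl x hx = (⟨QuotientGroup.mk x, x, hx, rfl⟩ : XX) from rfl, ← h4]
      exact h3
  obtain ⟨col, hcol⟩ := hmain
  let a : ℕ → G := fun t => if h : t < n + 1 then ρ (X ⟨t, h⟩) * (col ⟨t, h⟩).1 else 1
  have ha : ∀ t (h : t < n + 1), a t = ρ (X ⟨t, h⟩) * (col ⟨t, h⟩).1 := fun t h => dif_pos h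
  refine ⟨a, fun t ht => ?_, fun v' hv' c O K E hO1 hO2 hE hK x => ?_⟩
  · rw [ha t (by omega)]
    have h1 : ρ (X ⟨t, by omega⟩) * (col ⟨t, by omega⟩).1 ∈ Γ := Γ.mul_mem (ρΓ _) (hc.le (col _).2.1)
    refine ⟨h1, ?_, ?_, ?_⟩
    · rw [(col _).2.2 _ (ρΓ _)]; exact ρ0 _
    · rw [mul_inv_rev, mul_assoc]
      exact T.mul_mem (T.inv_mem (col _).2.1) (ρT _ (yΓ ⟨t, by omega⟩))
    · have h2 := (V.mul_mem (hw ⟨t, by omega⟩) (col ⟨t, by omega⟩).2).2 _ (ρΓ (X ⟨t, by omega⟩))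
      have e : ρ (X ⟨t, by omega⟩) * ((ρ (X ⟨t, by omega⟩))⁻¹ * (v t).w S * ρ (X ⟨t, by omega⟩) * (col ⟨t, by omega⟩).1)
          = (v t).w S * (ρ (X ⟨t, by omega⟩) * (col ⟨t, by omega⟩).1) := by group
      rw [e] at h2
      rw [h2]; exact ρ0 _
  · have ha' : ∀ t : Fin (n + 1), a t.1 = (ψ (X t, col t)).1 := fun t => ha t.1 t.2
    have hO : ∀ z, O (φ z) = φ (B.O z) := by
      rintro (⟨x, u⟩ | t)
      · rw [φl, BD.O_inl, φl]
        apply hO1
        rw [ψ_val, ψ_val]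
        show ρ x * (u.1 * g) = ρ x * u.1 * g
        rw [mul_assoc]
      · rw [φr, hO2, BD.O_inr, φr, Bnx]
    have hEk : ∀ k < n + 1, ∀ z, E k (φ z) = φ (B.vis (B.lv k) (col (B.lv k)) z) := by
      intro k hk z
      have h1 := hv' (B.lv k).1 (by have := (B.lv k).2; omega)
      have hww : (v' (B.lv k).1).w S = (v (B.lv k).1).w S := by
        unfold Vst.w
        rw [h1.2.1, h1.1]
      rw [hE k (by omega) (B.lv k) (ψ (X (B.lv k), col (B.lv k))) (ψ (X (B.lv k), B.w (B.lv k) * col (B.lv k))) (Blv k hk)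
        (by rw [← ha']; exact (h1.2.2 _).symm)
        (by
          rw [hww, ψ_val, ψ_val]
          show ρ (X (B.lv k)) * ((ρ (X (B.lv k)))⁻¹ * (v (B.lv k).1).w S * ρ (X (B.lv k)) * (col (B.lv k)).1) = _
          group)]
      unfold evis BD.vis
      rw [Perm.mul_apply, Perm.mul_apply, ← φr, ← φl, φ.injective.swap_apply]
      set z' := swap (Sum.inr (B.lv k)) (Sum.inl (X (B.lv k), col (B.lv k))) z with hz'
      show (if (v' (B.lv k).1).tw.isSome = true then _ else (1 : Perm (SQ7.Tok Γ lv n))) (φ z') = φ (swap _ _ z')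
      rw [h1.2.1]
      rcases h : (v (B.lv k).1).tw with _ | s
      · have h2 := (Bw _).2 h
        rw [h2, one_mul, swap_self]
        rfl
      · rw [Option.isSome_some, if_pos rfl, ← φl, φ.injective.swap_apply]
    have hKk : ∀ m ≤ n + 1, ∀ z, kpr E m (φ z) = φ (pl (fun k => B.vis (B.lv k) (col (B.lv k))) (List.range m) z) := by
      intro m
      induction m with
      | zero => intro _ z; rfl
      | succ m ih =>
        intro hm z
        show (E m * kpr E m) (φ z) = _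
        rw [Perm.mul_apply, ih (by omega), hEk m (by omega), List.range_succ, pl_append]
        rfl
    have hh : ∀ z, (O * K) (φ z) = φ ((B.O * B.K col) z) := by
      intro z
      rw [Perm.mul_apply, hK, hKk (n + 1) le_rfl, hO]
      rfl
    obtain ⟨z, rfl⟩ := φ.surjective x
    rcases hcol z with h | h
    · exact Or.inl (sc φ _ _ hh h)
    · exact Or.inr (sc φ _ _ hh h)

end Pool.Agent.Lib.MP_688fd0_co.SQ7.H58
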